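import Pool.Agent.H509R3.TraceObs
import Pool.Agent.H509R3.TraceAdm
import Pool.Agent.H509R3.CFDim

/-!
# Q2: the multiplicities of admissible traces of continued-fraction semigroups have no lower bound

For a finite alphabet `A` of positive integers let `Gam A` be the semigroup of the products of even
(positive) length of the matrices `(a, 1; 1, 0)` with `a ∈ A`, and `Cantor A` the set of the real
numbers whose continued fraction expansion has all its partial quotients (the first one included)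
in `A`. Q2 asks whether `M_A(t) > N ^ (2 δ - 1 - ε)` for every alphabet with `δ = dim Cantor A > 1/2`,
every `ε > 0`, all large `N` and all admissible `t` in `[N, 2N)`, where `M_A(t)` is the number of the
elements of `Gam A` with trace `t`.

The answer is no. For the alphabet `A = {9, 17, …, 8 K + 1}`, `K` large, the dimension of the Cantor
set is larger than `1/2`, all the integers `25 ^ k - 2` are admissible, and none of them is a trace of
an element of `Gam A`: `M_A(25 ^ k - 2) = 0`. So the lower bound fails for every exponent, positive or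
negative.

The three ingredients (the dimension, the admissibility and the quadratic obstruction) are in the
starting library (`Pool/Agent/H509R3`), which was made for the negative answer to Q1 (frozen
statement `S18994`).
-/

set_option autoImplicit false

open Filter Topology

namespace Pool.Agent.Results.MP_f5ee21_nt.TraceMultiplicity

/-- The product of the matrices `(a, 1; 1, 0)`, `a` in the list. -/
def prod (l : List ℕ) : Matrix (Fin 2) (Fin 2) ℤ :=
  (List.map (fun b : ℕ => (!![(b : ℤ), 1; 1, 0] : Matrix (Fin 2) (Fin 2) ℤ)) l).prod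

/-- The semigroup of the products of even length. -/
def Gam (A : Finset ℕ) : Set (Matrix (Fin 2) (Fin 2) ℤ) :=
  {M | ∃ l : List ℕ, l ≠ [] ∧ Even l.length ∧ (∀ b ∈ l, b ∈ A) ∧ M = prod l}

/-- The real numbers `[a 0, a 1, a 2, …]`, all `a j` in `A`: the limits of the convergents. -/
def Cantor (A : Finset ℕ) : Set ℝ :=
  {x | ∃ a : ℕ → ℕ, (∀ j, a j ∈ A) ∧
    Tendsto (fun n : ℕ =>
      ((List.map (fun j : ℕ => (!![(a j : ℝ), 1; 1, 0] : Matrix (Fin 2) (Fin 2) ℝ))
          (List.range (n + 1))).prod 0 0) /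
      ((List.map (fun j : ℕ => (!![(a j : ℝ), 1; 1, 0] : Matrix (Fin 2) (Fin 2) ℝ))
          (List.range (n + 1))).prod 1 0)) atTop (𝓝 x)}

/-- `t` is admissible: modulo every `q` it is the trace of an element of the semigroup. -/
def Admissible (A : Finset ℕ) (t : ℤ) : Prop :=
  ∀ q : ℤ, 1 ≤ q → ∃ M ∈ Gam A, M.trace ≡ t [ZMOD q]

/-- The number of the elements of the semigroup with trace `t`. -/
noncomputable def mult (A : Finset ℕ) (t : ℤ) : ℕ := {M | M ∈ Gam A ∧ M.trace = t}.ncard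

/-- The statement which Q2 asks to prove or disprove. -/
def Statement : Prop :=
  ∀ A : Finset ℕ, (∀ a ∈ A, 1 ≤ a) → 2 ≤ A.card → 1 / 2 < dimH (Cantor A) →
    ∀ ε : ℝ, 0 < ε → ∃ N₀ : ℕ, ∀ N : ℕ, N₀ ≤ N → ∀ t : ℤ, (N : ℤ) ≤ t → t < 2 * N →
      Admissible A t → (N : ℝ) ^ (2 * (dimH (Cantor A)).toReal - 1 - ε) < mult A t

/-- The alphabet `{9, 17, …, 8 K + 1}`. -/
def alph (K : ℕ) : Finset ℕ := (Finset.range K).image fun i => 8 * i + 9

/-- Q2 is disproved. For some `K ≥ 2` the alphabet `A = {9, 17, …, 8 K + 1}` has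
`dim Cantor A > 1/2`, and the integers `25 ^ k - 2` with `k ≥ 1` are admissible but not the trace of
any element of the semigroup. So for every real exponent `θ` there are arbitrarily large `N` and
admissible `t` in `[N, 2N)` with `M_A(t) = 0 < N ^ θ`, and the statement of Q2 is false. -/
theorem result :
    (∃ K : ℕ, 2 ≤ K ∧ (∀ a ∈ alph K, 1 ≤ a) ∧ (alph K).card = K ∧
      1 / 2 < dimH (Cantor (alph K)) ∧
      (∀ k : ℕ, 1 ≤ k → Admissible (alph K) (25 ^ k - 2) ∧
        (∀ M ∈ Gam (alph K), M.trace ≠ 25 ^ k - 2) ∧ mult (alph K) (25 ^ k - 2) = 0) ∧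
      ∀ (θ : ℝ) (N₀ : ℕ), ∃ N : ℕ, N₀ ≤ N ∧ ∃ t : ℤ, (N : ℤ) ≤ t ∧ t < 2 * N ∧
        Admissible (alph K) t ∧ mult (alph K) t = 0 ∧ (0 : ℝ) < (N : ℝ) ^ θ) ∧
    ¬ Statement := by
  have key : ∃ K : ℕ, 2 ≤ K ∧ (∀ a ∈ alph K, 1 ≤ a) ∧ (alph K).card = K ∧
      1 / 2 < dimH (Cantor (alph K)) ∧
      (∀ k : ℕ, 1 ≤ k → Admissible (alph K) (25 ^ k - 2) ∧
        (∀ M ∈ Gam (alph K), M.trace ≠ 25 ^ k - 2) ∧ mult (alph K) (25 ^ k - 2) = 0) := by
    obtain ⟨K, hK, hdim⟩ := Pool.Agent.H509R3.exists_dim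
    have h25 : ∀ k : ℕ, (25 : ℤ) ^ k = (5 ^ k) ^ 2 := by
      intro k
      rw [← pow_mul, mul_comm, pow_mul]
      norm_num
    refine ⟨K, hK, ?_, ?_, hdim, fun k _ => ?_⟩
    · intro a ha
      obtain ⟨i, _, rfl⟩ := Finset.mem_image.mp ha
      omega
    · unfold alph
      rw [Finset.card_image_of_injective _ (fun a b h => by simpa using h), Finset.card_range]
    · have h1 : ∀ M ∈ Gam (alph K), M.trace ≠ 25 ^ k - 2 := by
        rintro M ⟨l, _, hev, hmem, rfl⟩ htr
        rw [h25] at htr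
        exact Pool.Agent.H509R3.no_trace l (by
          intro b hb
          obtain ⟨i, _, rfl⟩ := Finset.mem_image.mp (hmem b hb)
          omega) hev k htr
      refine ⟨?_, h1, ?_⟩
      · intro q hq
        obtain ⟨l, h1, h2, h3, h4⟩ := Pool.Agent.H509R3.admissible k q hq
        refine ⟨prod l, ⟨l, h1, h2, fun b hb => ?_, rfl⟩, ?_⟩
        · rcases h3 b hb with h | h
          · rw [h]
            exact Finset.mem_image.mpr ⟨0, Finset.mem_range.mpr (by omega), rfl⟩
          · rw [h]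
            exact Finset.mem_image.mpr ⟨1, Finset.mem_range.mpr (by omega), rfl⟩
        · rw [h25]
          exact h4
      · have h6 : {M | M ∈ Gam (alph K) ∧ M.trace = 25 ^ k - 2} = ∅ := by
          rw [Set.eq_empty_iff_forall_notMem]
          rintro M ⟨hM, htr⟩
          exact h1 M hM htr
        unfold mult
        rw [h6, Set.ncard_empty]
  obtain ⟨K, hK, h1, h2, h3, h4⟩ := key
  have h5 : ∀ (θ : ℝ) (N₀ : ℕ), ∃ N : ℕ, N₀ ≤ N ∧ ∃ t : ℤ, (N : ℤ) ≤ t ∧ t < 2 * N ∧
      Admissible (alph K) t ∧ mult (alph K) t = 0 ∧ (0 : ℝ) < (N : ℝ) ^ θ := by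
    intro θ N₀
    obtain ⟨k, hk⟩ := pow_unbounded_of_one_lt (N₀ + 2) (by norm_num : 1 < 25)
    have hk1 : 1 ≤ k := by
      rcases Nat.eq_zero_or_pos k with h | h
      · subst h
        omega
      · exact h
    have hc : ((25 ^ k - 2 : ℕ) : ℤ) = 25 ^ k - 2 := by
      rw [Nat.cast_sub (by omega)]
      push_cast
      ring
    have h6 : (25 : ℤ) ≤ 25 ^ k := by
      calc (25 : ℤ) = 25 ^ 1 := by norm_num
        _ ≤ 25 ^ k := pow_le_pow_right₀ (by norm_num) hk1
    refine ⟨25 ^ k - 2, by omega, 25 ^ k - 2, hc.le, ?_, (h4 k hk1).1, (h4 k hk1).2.2, ?_⟩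
    · rw [hc]
      linarith
    · apply Real.rpow_pos_of_pos
      have : 0 < 25 ^ k - 2 := by omega
      exact_mod_cast this
  refine ⟨⟨K, hK, h1, h2, h3, h4, h5⟩, fun hS => ?_⟩
  obtain ⟨N₀, hN⟩ := hS (alph K) h1 (h2.symm ▸ hK) h3 1 one_pos
  obtain ⟨N, hN1, t, h7, h8, h9, h10, h11⟩ := h5 (2 * (dimH (Cantor (alph K))).toReal - 1 - 1) N₀
  have h12 := hN N hN1 t h7 h8 h9
  rw [h10, Nat.cast_zero] at h12
  linarith

end Pool.Agent.Results.MP_f5ee21_nt.TraceMultiplicity
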